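import Pool.Agent.helper52.BN.Ode

/-!
# MP_94a57f_an, module O3: Sturm comparison and nonresonance of the other modes
-/

set_option autoImplicit false
open MeasureTheory Filter Topology Set Metric

noncomputable section
namespace Pool.Agent.helper13.BN
variable {N : ℕ}

theorem o3_continuous_qf (ν lam : ℝ) : Continuous (qf ν lam) := by
  unfold qf
  fun_prop

/-- uniqueness for the linear equation -/
theorem o3_ode_unique {q Y : ℝ → ℝ} (hq : Continuous q) (hYd : Differentiable ℝ Y)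
    (hY : ∀ t, HasDerivAt (deriv Y) (q t * Y t) t) {t₀ : ℝ} (h0 : Y t₀ = 0)
    (h1 : deriv Y t₀ = 0) (t : ℝ) : Y t = 0 := by
  set a := min t t₀ with ha
  set b := max t t₀ with hb
  obtain ⟨M, hM⟩ := (isCompact_Icc (a := a) (b := b)).exists_bound_of_continuousOn
    (hq.continuousOn (s := Icc a b))
  have hM0 : 0 ≤ M := by
    refine le_trans (norm_nonneg _) (hM t ⟨min_le_left _ _, le_max_left _ _⟩)
  set F : ℝ → ℝ := fun s => Y s ^ 2 + deriv Y s ^ 2 with hF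
  have hFd : ∀ s, HasDerivAt F (2 * (1 + q s) * (Y s * deriv Y s)) s := by
    intro s
    have h1 := ((hYd s).hasDerivAt.pow 2).add ((hY s).pow 2)
    refine h1.congr_deriv ?_
    simp only [Nat.cast_ofNat]
    ring
  have hF0 : F t₀ = 0 := by simp [hF, h0, h1]
  have hbound : ∀ s ∈ Icc a b, |2 * (1 + q s) * (Y s * deriv Y s)| ≤ (1 + M) * F s := by
    intro s hs
    have h2 : |q s| ≤ M := hM s hs
    have h3 : |2 * (Y s * deriv Y s)| ≤ F s := by
      simp only [hF]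
      rw [abs_le]
      constructor <;> nlinarith [sq_nonneg (Y s + deriv Y s), sq_nonneg (Y s - deriv Y s)]
    have h4 : |1 + q s| ≤ 1 + M := by
      refine (abs_add_le _ _).trans ?_
      simpa using h2
    have h5 : 2 * (1 + q s) * (Y s * deriv Y s) = (1 + q s) * (2 * (Y s * deriv Y s)) := by ring
    rw [h5, abs_mul]
    exact mul_le_mul h4 h3 (abs_nonneg _) (by linarith)
  have hFt : F t ≤ 0 := by
    rcases le_total t₀ t with htt | htt
    · -- forward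
      have haa : a = t₀ := by rw [ha]; exact min_eq_right htt
      have hbb : b = t := by rw [hb]; exact max_eq_left htt
      have hG : ∀ s, HasDerivAt (fun s => F s * Real.exp (-(1 + M) * s))
          ((2 * (1 + q s) * (Y s * deriv Y s)) * Real.exp (-(1 + M) * s)
            + F s * (Real.exp (-(1 + M) * s) * (-(1 + M) * 1))) s := by
        intro s
        exact (hFd s).mul ((((hasDerivAt_id s).const_mul (-(1 + M)))).exp)
      have hanti : AntitoneOn (fun s => F s * Real.exp (-(1 + M) * s)) (Icc t₀ t) := by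
        refine antitoneOn_of_deriv_nonpos (convex_Icc _ _)
          (fun s _ => (hG s).continuousAt.continuousWithinAt)
          (fun s _ => (hG s).differentiableAt.differentiableWithinAt) ?_
        intro s hs
        rw [interior_Icc] at hs
        rw [(hG s).deriv]
        have h6 := hbound s (by rw [haa, hbb]; exact ⟨hs.1.le, hs.2.le⟩)
        have h7 := (abs_le.mp h6).2
        have h8 : (2 * (1 + q s) * (Y s * deriv Y s)) * Real.exp (-(1 + M) * s)
            + F s * (Real.exp (-(1 + M) * s) * (-(1 + M) * 1))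
            = (2 * (1 + q s) * (Y s * deriv Y s) - (1 + M) * F s) * Real.exp (-(1 + M) * s) := by
          ring
        rw [h8]
        exact mul_nonpos_of_nonpos_of_nonneg (by linarith) (Real.exp_pos _).le
      have h9 := hanti (left_mem_Icc.mpr htt) (right_mem_Icc.mpr htt) htt
      simp only [hF0, zero_mul] at h9
      by_contra hcon
      push Not at hcon
      exact absurd h9 (not_le.mpr (mul_pos hcon (Real.exp_pos _)))
    · -- backward
      have haa : a = t := by rw [ha]; exact min_eq_left htt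
      have hbb : b = t₀ := by rw [hb]; exact max_eq_right htt
      have hG : ∀ s, HasDerivAt (fun s => F s * Real.exp ((1 + M) * s))
          ((2 * (1 + q s) * (Y s * deriv Y s)) * Real.exp ((1 + M) * s)
            + F s * (Real.exp ((1 + M) * s) * ((1 + M) * 1))) s := by
        intro s
        exact (hFd s).mul ((((hasDerivAt_id s).const_mul ((1 + M)))).exp)
      have hmono : MonotoneOn (fun s => F s * Real.exp ((1 + M) * s)) (Icc t t₀) := by
        refine monotoneOn_of_deriv_nonneg (convex_Icc _ _)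
          (fun s _ => (hG s).continuousAt.continuousWithinAt)
          (fun s _ => (hG s).differentiableAt.differentiableWithinAt) ?_
        intro s hs
        rw [interior_Icc] at hs
        rw [(hG s).deriv]
        have h6 := hbound s (by rw [haa, hbb]; exact ⟨hs.1.le, hs.2.le⟩)
        have h7 := (abs_le.mp h6).1
        have h8 : (2 * (1 + q s) * (Y s * deriv Y s)) * Real.exp ((1 + M) * s)
            + F s * (Real.exp ((1 + M) * s) * ((1 + M) * 1))
            = (2 * (1 + q s) * (Y s * deriv Y s) + (1 + M) * F s) * Real.exp ((1 + M) * s) := by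
          ring
        rw [h8]
        exact mul_nonneg (by linarith) (Real.exp_pos _).le
      have h9 := hmono (left_mem_Icc.mpr htt) (right_mem_Icc.mpr htt) htt
      simp only [hF0, zero_mul] at h9
      by_contra hcon
      push Not at hcon
      exact absurd h9 (not_le.mpr (mul_pos hcon (Real.exp_pos _)))
  have h10 : Y t ^ 2 ≤ 0 := by
    have : 0 ≤ deriv Y t ^ 2 := sq_nonneg _
    simp only [hF] at hFt
    linarith
  exact pow_eq_zero_iff (two_ne_zero) |>.mp (le_antisymm h10 (sq_nonneg _))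

/-- a positive function on `(a,b)` vanishing at `a` has nonnegative derivative at `a` -/
theorem o3_deriv_nonneg_left {Z : ℝ → ℝ} (hZ : Differentiable ℝ Z) {a b : ℝ} (hab : a < b)
    (ha : Z a = 0) (hpos : ∀ t ∈ Ioo a b, 0 ≤ Z t) : 0 ≤ deriv Z a := by
  have h1 : Tendsto (slope Z a) (𝓝[>] a) (𝓝 (deriv Z a)) :=
    (hasDerivAt_iff_tendsto_slope.mp (hZ a).hasDerivAt).mono_left
      (nhdsWithin_mono _ (fun x hx => ne_of_gt hx))
  refine ge_of_tendsto h1 ?_
  filter_upwards [Ioo_mem_nhdsGT hab] with t ht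
  rw [slope_def_field, ha, sub_zero]
  exact div_nonneg (hpos t ht) (sub_nonneg.mpr ht.1.le)

/-- a positive function on `(a,b)` vanishing at `b` has nonpositive derivative at `b` -/
theorem o3_deriv_nonpos_right {Z : ℝ → ℝ} (hZ : Differentiable ℝ Z) {a b : ℝ} (hab : a < b)
    (hb : Z b = 0) (hpos : ∀ t ∈ Ioo a b, 0 ≤ Z t) : deriv Z b ≤ 0 := by
  have h1 : Tendsto (slope Z b) (𝓝[<] b) (𝓝 (deriv Z b)) :=
    (hasDerivAt_iff_tendsto_slope.mp (hZ b).hasDerivAt).mono_left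
      (nhdsWithin_mono _ (fun x hx => ne_of_lt hx))
  refine le_of_tendsto h1 ?_
  filter_upwards [Ioo_mem_nhdsLT hab] with t ht
  rw [slope_def_field, hb, sub_zero]
  exact div_nonpos_of_nonneg_of_nonpos (hpos t ht) (sub_nonpos.mpr ht.2.le)

/-- Sturm comparison, positive case -/
theorem o3_sturm_pos {q q' : ℝ → ℝ} (hqq : ∀ t, q t < q' t) {a b : ℝ} (hab : a < b)
    {Z : ℝ → ℝ} (hZd : Differentiable ℝ Z) (hZ : ∀ t, HasDerivAt (deriv Z) (q' t * Z t) t)
    (hZa : Z a = 0) (hZb : Z b = 0) (hZp : ∀ t ∈ Ioo a b, 0 < Z t)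
    {Y : ℝ → ℝ} (hYd : Differentiable ℝ Y) (hY : ∀ t, HasDerivAt (deriv Y) (q t * Y t) t)
    (hYp : ∀ t ∈ Ioo a b, 0 < Y t) : False := by
  set W : ℝ → ℝ := fun t => deriv Y t * Z t - Y t * deriv Z t with hW
  have hWd : ∀ t, HasDerivAt W ((q t - q' t) * (Y t * Z t)) t := by
    intro t
    have h1 := ((hY t).mul (hZd t).hasDerivAt).sub ((hYd t).hasDerivAt.mul (hZ t))
    refine h1.congr_deriv ?_
    ring
  have hanti : StrictAntiOn W (Icc a b) := by
    refine strictAntiOn_of_deriv_neg (convex_Icc _ _)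
      (fun s _ => (hWd s).continuousAt.continuousWithinAt) ?_
    intro t ht
    rw [interior_Icc] at ht
    rw [(hWd t).deriv]
    exact mul_neg_of_neg_of_pos (sub_neg.mpr (hqq t)) (mul_pos (hYp t ht) (hZp t ht))
  have h1 := hanti (left_mem_Icc.mpr hab.le) (right_mem_Icc.mpr hab.le) hab
  have hYa : 0 ≤ Y a := by
    have h2 : Tendsto Y (𝓝[>] a) (𝓝 (Y a)) := (hYd a).continuousAt.tendsto.mono_left inf_le_left
    refine ge_of_tendsto h2 ?_
    filter_upwards [Ioo_mem_nhdsGT hab] with t ht using (hYp t ht).le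
  have hYb : 0 ≤ Y b := by
    have h2 : Tendsto Y (𝓝[<] b) (𝓝 (Y b)) := (hYd b).continuousAt.tendsto.mono_left inf_le_left
    refine ge_of_tendsto h2 ?_
    filter_upwards [Ioo_mem_nhdsLT hab] with t ht using (hYp t ht).le
  have hZ'a := o3_deriv_nonneg_left hZd hab hZa (fun t ht => (hZp t ht).le)
  have hZ'b := o3_deriv_nonpos_right hZd hab hZb (fun t ht => (hZp t ht).le)
  simp only [hW, hZa, hZb, mul_zero, zero_sub] at h1
  nlinarith [mul_nonneg hYa hZ'a, mul_nonneg hYb (neg_nonneg.mpr hZ'b)]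

/-- a continuous function without zeros on `(a,b)` has constant sign -/
theorem o3_sign_const {Z : ℝ → ℝ} (hZ : Continuous Z) {a b : ℝ}
    (hne : ∀ t ∈ Ioo a b, Z t ≠ 0) :
    (∀ t ∈ Ioo a b, 0 < Z t) ∨ (∀ t ∈ Ioo a b, Z t < 0) := by
  by_contra hcon
  push Not at hcon
  obtain ⟨⟨s, hs, hs0⟩, ⟨t, ht, ht0⟩⟩ := hcon
  have hs1 : Z s < 0 := lt_of_le_of_ne hs0 (hne s hs)
  have ht1 : 0 < Z t := lt_of_le_of_ne ht0 (fun h => hne t ht h.symm)
  have h1 : Icc (Z s) (Z t) ⊆ Z '' uIcc s t := by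
    have := intermediate_value_uIcc (hZ.continuousOn (s := uIcc s t))
    rwa [uIcc_of_le (hs1.trans ht1).le] at this
  obtain ⟨r, hr, hr0⟩ := h1 ⟨hs1.le, ht1.le⟩
  refine hne r ?_ hr0
  rcases le_total s t with hst | hst
  · rw [uIcc_of_le hst] at hr
    exact ⟨lt_of_lt_of_le hs.1 hr.1, lt_of_le_of_lt hr.2 ht.2⟩
  · rw [uIcc_of_ge hst] at hr
    exact ⟨lt_of_lt_of_le ht.1 hr.1, lt_of_le_of_lt hr.2 hs.2⟩

/-- maximal interval without zeros around a nonzero point -/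
theorem o3_exists_nodal {Z : ℝ → ℝ} (hZ : Continuous Z) {a b t : ℝ} (ht : t ∈ Ioo a b)
    (hZa : Z a = 0) (hZb : Z b = 0) (hZt : Z t ≠ 0) :
    ∃ a' b', a ≤ a' ∧ a' < b' ∧ b' ≤ b ∧ Z a' = 0 ∧ Z b' = 0 ∧ ∀ s ∈ Ioo a' b', Z s ≠ 0 := by
  set A : Set ℝ := {s | s ∈ Icc a t ∧ Z s = 0} with hA
  set B : Set ℝ := {s | s ∈ Icc t b ∧ Z s = 0} with hB
  have hAc : IsCompact A := by
    have : A = Icc a t ∩ Z ⁻¹' {0} := by ext s; simp [hA]
    rw [this]
    exact isCompact_Icc.inter_right (isClosed_singleton.preimage hZ)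
  have hBc : IsCompact B := by
    have : B = Icc t b ∩ Z ⁻¹' {0} := by ext s; simp [hB]
    rw [this]
    exact isCompact_Icc.inter_right (isClosed_singleton.preimage hZ)
  have hAn : A.Nonempty := ⟨a, ⟨le_rfl, ht.1.le⟩, hZa⟩
  have hBn : B.Nonempty := ⟨b, ⟨ht.2.le, le_rfl⟩, hZb⟩
  obtain ⟨a', ha', ha'max⟩ := hAc.exists_isGreatest hAn
  obtain ⟨b', hb', hb'min⟩ := hBc.exists_isLeast hBn
  have h1 : a' < t := lt_of_le_of_ne ha'.1.2 (fun h => hZt (h ▸ ha'.2))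
  have h2 : t < b' := lt_of_le_of_ne hb'.1.1 (fun h => hZt (h ▸ hb'.2))
  refine ⟨a', b', ha'.1.1, h1.trans h2, hb'.1.2, ha'.2, hb'.2, ?_⟩
  intro s hs hs0
  rcases le_total s t with hst | hst
  · exact absurd (ha'max ⟨⟨ha'.1.1.trans hs.1.le, hst⟩, hs0⟩) (not_le.mpr hs.1)
  · exact absurd (hb'min ⟨⟨hst, hs.2.le.trans hb'.1.2⟩, hs0⟩) (not_le.mpr hs.2)

theorem o3_hasDerivAt_deriv_neg {q Y : ℝ → ℝ} (hY : ∀ t, HasDerivAt (deriv Y) (q t * Y t) t) (t : ℝ) :
    HasDerivAt (deriv (fun s => -Y s)) (q t * (-Y t)) t := by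
  have h1 : deriv (fun s => -Y s) = fun s => -deriv Y s := by
    funext s
    exact deriv.fun_neg
  rw [h1]
  refine ((hY t).neg).congr_deriv ?_
  ring

/-- Sturm comparison, general coefficients -/
theorem sturm_gen {q q' : ℝ → ℝ} (hqq : ∀ t, q t < q' t) {a b : ℝ}
    {Z : ℝ → ℝ} (hZd : Differentiable ℝ Z) (hZ : ∀ t, HasDerivAt (deriv Z) (q' t * Z t) t)
    (hZa : Z a = 0) (hZb : Z b = 0) (hZne : ∃ t ∈ Ioo a b, Z t ≠ 0)
    {Y : ℝ → ℝ} (hYd : Differentiable ℝ Y) (hY : ∀ t, HasDerivAt (deriv Y) (q t * Y t) t) :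
    ∃ t ∈ Ioo a b, Y t = 0 := by
  obtain ⟨t, ht, hZt⟩ := hZne
  obtain ⟨a', b', haa, hab', hbb, hZa', hZb', hne⟩ := o3_exists_nodal hZd.continuous ht hZa hZb hZt
  by_contra hcon
  push Not at hcon
  have hYne : ∀ s ∈ Ioo a' b', Y s ≠ 0 := fun s hs =>
    hcon s ⟨lt_of_le_of_lt haa hs.1, lt_of_lt_of_le hs.2 hbb⟩
  have hZn : ∀ s, HasDerivAt (deriv (fun s => -Z s)) (q' s * (-Z s)) s :=
    o3_hasDerivAt_deriv_neg hZ
  have hYn : ∀ s, HasDerivAt (deriv (fun s => -Y s)) (q s * (-Y s)) s :=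
    o3_hasDerivAt_deriv_neg hY
  rcases o3_sign_const hZd.continuous hne with hz | hz <;>
    rcases o3_sign_const hYd.continuous hYne with hy | hy
  · exact o3_sturm_pos hqq hab' hZd hZ hZa' hZb' hz hYd hY hy
  · exact o3_sturm_pos hqq hab' hZd hZ hZa' hZb' hz hYd.neg hYn
      (fun s hs => neg_pos.mpr (hy s hs))
  · exact o3_sturm_pos hqq hab' hZd.neg hZn (by simp [hZa']) (by simp [hZb'])
      (fun s hs => neg_pos.mpr (hz s hs)) hYd hY hy
  · exact o3_sturm_pos hqq hab' hZd.neg hZn (by simp [hZa']) (by simp [hZb'])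
      (fun s hs => neg_pos.mpr (hz s hs)) hYd.neg hYn
      (fun s hs => neg_pos.mpr (hy s hs))

theorem o3_qf_lt {ν ν' : ℝ} (hν : 0 ≤ ν) (hνν : ν < ν') (lam t : ℝ) : qf ν lam t < qf ν' lam t := by
  unfold qf
  have : ν ^ 2 < ν' ^ 2 := by nlinarith
  linarith

/-- Sturm comparison -/
theorem sturm {ν ν' lam a b : ℝ} (hν : 0 ≤ ν) (hνν : ν < ν') (_ha : 0 ≤ a) (_hab : a < b)
    {Z : ℝ → ℝ} (hZd : Differentiable ℝ Z) (hZ : ∀ t, HasDerivAt (deriv Z) (qf ν' lam t * Z t) t)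
    (hZa : Z a = 0) (hZb : Z b = 0) (hZne : ∃ t ∈ Ioo a b, Z t ≠ 0)
    {Y : ℝ → ℝ} (hYd : Differentiable ℝ Y) (hY : ∀ t, HasDerivAt (deriv Y) (qf ν lam t * Y t) t) :
    ∃ t ∈ Ioo a b, Y t = 0 :=
  sturm_gen (o3_qf_lt hν hνν lam) hZd hZ hZa hZb hZne hYd hY

/-- `Y(0)=0`, `Y'(0)=1` implies `Y > 0` immediately after `0` -/
theorem IsSol1.o3_pos_near {q Y : ℝ → ℝ} (h : IsSol1 q Y) {b : ℝ} (hb : 0 < b) :
    ∃ t ∈ Ioo 0 b, 0 < Y t := by
  have h1 : Tendsto (slope Y 0) (𝓝[>] 0) (𝓝 1) := by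
    have h2 := (hasDerivAt_iff_tendsto_slope.mp (h.2.2.1 0).hasDerivAt).mono_left
      (nhdsWithin_mono (0 : ℝ) (fun (x : ℝ) (hx : x ∈ Ioi (0 : ℝ)) => ne_of_gt hx))
    rwa [h.2.1] at h2
  have h3 : ∀ᶠ t in 𝓝[>] (0 : ℝ), 0 < slope Y 0 t := h1.eventually (lt_mem_nhds one_pos)
  obtain ⟨t, ht, htb⟩ := (h3.and (Ioo_mem_nhdsGT hb)).exists
  refine ⟨t, htb, ?_⟩
  rw [slope_def_field, h.1, sub_zero, sub_zero] at ht
  exact (div_pos_iff_of_pos_right htb.1).mp ht

/-- a solution with `Y'(0)=1` does not vanish identically on an interval -/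
theorem IsSol1.o3_ne_zero_on {q Y : ℝ → ℝ} (hq : Continuous q) (h : IsSol1 q Y) {a b : ℝ}
    (hab : a < b) : ∃ t ∈ Ioo a b, Y t ≠ 0 := by
  by_contra hcon
  push Not at hcon
  have hm : (a + b) / 2 ∈ Ioo a b := ⟨by linarith, by linarith⟩
  have h1 : Y =ᶠ[𝓝 ((a + b) / 2)] fun _ => 0 := by
    filter_upwards [Ioo_mem_nhds hm.1 hm.2] with t ht using hcon t ht
  have h2 : deriv Y ((a + b) / 2) = 0 := by
    rw [h1.deriv_eq]
    simp
  have h3 := o3_ode_unique hq h.2.2.1 h.2.2.2 (hcon _ hm) h2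
  have h4 : deriv Y 0 = 0 := by
    have : Y = fun _ => 0 := funext h3
    rw [this]
    simp
  rw [h.2.1] at h4
  exact one_ne_zero h4

/-- no resonance, for arbitrary solutions -/
theorem o3_nonres_gen {c lam L : ℝ} (hc : 0 ≤ c) {Y : ℕ → ℝ → ℝ}
    (hY : ∀ j : ℕ, IsSol1 (qf (j + c) lam) (Y j)) {l : ℕ} (_hl : 1 ≤ l) (hL : 0 < L)
    (h0' : ∃ z ∈ Ioo 0 L, ∀ t ∈ Ioo 0 L, Y 0 t = 0 ↔ t = z)
    (hl0 : Y l L = 0) (hl' : ∀ t ∈ Ioo 0 L, 0 < Y l t) :
    ∀ j : ℕ, j ≠ 0 → j ≠ l → Y j L ≠ 0 := by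
  intro j hj0 hjl hjL
  obtain ⟨z, hz, hzu⟩ := h0'
  have hcj : ∀ i : ℕ, 0 ≤ (i : ℝ) + c := fun i => by positivity
  rcases lt_or_gt_of_ne hjl with hlt | hgt
  · -- `j < l`
    have hj1 : (0 : ℕ) < j := Nat.pos_of_ne_zero hj0
    have hν0 : ((0 : ℕ) : ℝ) + c < j + c := by
      have : ((0 : ℕ) : ℝ) < j := by exact_mod_cast hj1
      linarith
    have hnz : ∀ t ∈ Ioo 0 L, Y j t ≠ 0 := by
      intro t ht ht0
      obtain ⟨s1, hs1, hs10⟩ := sturm_gen (o3_qf_lt (hcj 0) hν0 lam) (hY j).2.2.1 (hY j).2.2.2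
        (hY j).1 ht0 (by
          obtain ⟨s, hs, hsp⟩ := (hY j).o3_pos_near ht.1
          exact ⟨s, hs, hsp.ne'⟩) (hY 0).2.2.1 (hY 0).2.2.2
      obtain ⟨s2, hs2, hs20⟩ := sturm_gen (o3_qf_lt (hcj 0) hν0 lam) (hY j).2.2.1 (hY j).2.2.2
        ht0 hjL ((hY j).o3_ne_zero_on (o3_continuous_qf _ _) ht.2) (hY 0).2.2.1 (hY 0).2.2.2
      have e1 := (hzu s1 ⟨hs1.1, hs1.2.trans ht.2⟩).mp hs10
      have e2 := (hzu s2 ⟨ht.1.trans hs2.1, hs2.2⟩).mp hs20
      have : s1 < s2 := hs1.2.trans hs2.1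
      rw [e1, e2] at this
      exact lt_irrefl _ this
    have hνl : (j : ℝ) + c < l + c := by
      have : (j : ℝ) < l := by exact_mod_cast hlt
      linarith
    obtain ⟨s, hs, hs0⟩ := sturm_gen (o3_qf_lt (hcj j) hνl lam) (hY l).2.2.1 (hY l).2.2.2
      (hY l).1 hl0 ⟨L / 2, ⟨by linarith, by linarith⟩,
        (hl' (L / 2) ⟨by linarith, by linarith⟩).ne'⟩ (hY j).2.2.1 (hY j).2.2.2
    exact hnz s hs hs0
  · -- `l < j`
    have hνl : (l : ℝ) + c < j + c := by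
      have : (l : ℝ) < j := by exact_mod_cast hgt
      linarith
    obtain ⟨s, hs, hs0⟩ := sturm_gen (o3_qf_lt (hcj l) hνl lam) (hY j).2.2.1 (hY j).2.2.2
      (hY j).1 hjL (by
          obtain ⟨s, hs, hsp⟩ := (hY j).o3_pos_near hL
          exact ⟨s, hs, hsp.ne'⟩) (hY l).2.2.1 (hY l).2.2.2
    exact (hl' s hs).ne' hs0

/-- no resonance of the other modes at the crossing (with `yf_spec` as a hypothesis) -/
theorem o3_nonres (hspec : ∀ ν lam : ℝ, IsSol1 (qf ν lam) (yf ν lam)) (hN : 3 ≤ N) {l : ℕ}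
    (hl : 1 ≤ l) {L lam : ℝ} (hL : 0 < L)
    (_h0 : yf (cc N) lam L = 0) (h0' : ∃ z ∈ Ioo 0 L, ∀ t ∈ Ioo 0 L, yf (cc N) lam t = 0 ↔ t = z)
    (hl0 : yf (l + cc N) lam L = 0) (hl' : ∀ t ∈ Ioo 0 L, 0 < yf (l + cc N) lam t) :
    ∀ j : ℕ, j ≠ 0 → j ≠ l → yf (j + cc N) lam L ≠ 0 := by
  have hc : 0 ≤ cc N := by
    unfold cc
    have : (3 : ℝ) ≤ N := by exact_mod_cast hN
    linarith
  refine o3_nonres_gen (Y := fun j => yf (j + cc N) lam) hc (fun j => hspec _ _) hl hL ?_ hl0 hl'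
  simpa using h0'

/-- no resonance of the other modes at the crossing -/
theorem nonres (hN : 3 ≤ N) {l : ℕ} (hl : 1 ≤ l) {L lam : ℝ} (hL : 0 < L)
    (h0 : yf (cc N) lam L = 0) (h0' : ∃ z ∈ Ioo 0 L, ∀ t ∈ Ioo 0 L, yf (cc N) lam t = 0 ↔ t = z)
    (hl0 : yf (l + cc N) lam L = 0) (hl' : ∀ t ∈ Ioo 0 L, 0 < yf (l + cc N) lam t) :
    ∀ j : ℕ, j ≠ 0 → j ≠ l → yf (j + cc N) lam L ≠ 0 :=
  o3_nonres yf_spec hN hl hL h0 h0' hl0 hl'

end Pool.Agent.helper13.BN
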