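import Pool.Agent.helper73.BN.AADef

/-!
# MP_94a57f_an, module C9b: one-dimensional convexity lemma
-/

set_option autoImplicit false
open MeasureTheory Filter Topology Set Metric
open scoped ContDiff

noncomputable section
namespace Pool.Agent.helper13.BN
variable {N : ℕ}

namespace C9b

/-- smoothed positive part -/
def Phi (u : ℝ) : ℝ := ∫ v in (0 : ℝ)..u, Real.smoothTransition v

theorem hasDerivAt_Phi (u : ℝ) : HasDerivAt Phi (Real.smoothTransition u) u :=
  (Real.smoothTransition.continuous.integral_hasStrictDerivAt 0 u).hasDerivAt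

theorem deriv_Phi : deriv Phi = Real.smoothTransition := funext fun u => (hasDerivAt_Phi u).deriv

theorem contDiff_Phi : ContDiff ℝ ∞ Phi := by
  rw [contDiff_infty_iff_deriv]
  refine ⟨fun u => (hasDerivAt_Phi u).differentiableAt, ?_⟩
  rw [deriv_Phi]
  exact Real.smoothTransition.contDiff

theorem Phi_of_nonpos {u : ℝ} (hu : u ≤ 0) : Phi u = 0 := by
  unfold Phi
  rw [intervalIntegral.integral_symm, intervalIntegral.integral_zero_ae, neg_zero]
  refine Eventually.of_forall fun v hv => ?_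
  rw [uIoc_of_le hu] at hv
  exact Real.smoothTransition.zero_of_nonpos hv.2

theorem Phi_of_one_le {u : ℝ} (hu : 1 ≤ u) : Phi u = u - (1 - Phi 1) := by
  have hi : ∀ a b : ℝ, IntervalIntegrable Real.smoothTransition volume a b := fun a b =>
    Real.smoothTransition.continuous.intervalIntegrable a b
  have h1 : Phi u = Phi 1 + ∫ v in (1 : ℝ)..u, Real.smoothTransition v := by
    unfold Phi
    rw [intervalIntegral.integral_add_adjacent_intervals (hi _ _) (hi _ _)]
  have h2 : ∫ v in (1 : ℝ)..u, Real.smoothTransition v = ∫ _ in (1 : ℝ)..u, (1 : ℝ) := by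
    refine intervalIntegral.integral_congr fun v hv => ?_
    rw [uIcc_of_le hu] at hv
    exact Real.smoothTransition.one_of_one_le hv.1
  rw [h1, h2, intervalIntegral.integral_const, smul_eq_mul, mul_one]
  ring

theorem convex_Phi : ConvexOn ℝ univ Phi := by
  refine Monotone.convexOn_univ_of_deriv (fun u => (hasDerivAt_Phi u).differentiableAt) ?_
  rw [deriv_Phi]
  exact Real.smoothTransition.monotone

/-- the bump `S'((s-p)/δ)/δ` -/
def bmp (δ p s : ℝ) : ℝ := deriv Real.smoothTransition ((s - p) / δ) / δ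

theorem differentiable_S : Differentiable ℝ Real.smoothTransition :=
  (Real.smoothTransition.contDiff (n := 1)).differentiable (by norm_num)

theorem continuous_dS : Continuous (deriv Real.smoothTransition) :=
  (Real.smoothTransition.contDiff (n := 1)).continuous_deriv (by norm_num)

theorem dS_nonneg (u : ℝ) : 0 ≤ deriv Real.smoothTransition u :=
  Real.smoothTransition.monotone.deriv_nonneg

theorem dS_neg {u : ℝ} (hu : u < 0) : deriv Real.smoothTransition u = 0 := by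
  have h : Real.smoothTransition =ᶠ[𝓝 u] fun _ => 0 := by
    filter_upwards [Iio_mem_nhds hu] with v hv
    exact Real.smoothTransition.zero_of_nonpos (le_of_lt hv)
  rw [h.deriv_eq]
  simp

theorem dS_gt {u : ℝ} (hu : 1 < u) : deriv Real.smoothTransition u = 0 := by
  have h : Real.smoothTransition =ᶠ[𝓝 u] fun _ => 1 := by
    filter_upwards [Ioi_mem_nhds hu] with v hv
    exact Real.smoothTransition.one_of_one_le (le_of_lt hv)
  rw [h.deriv_eq]
  simp

theorem bmp_nonneg {δ : ℝ} (hδ : 0 < δ) (p s : ℝ) : 0 ≤ bmp δ p s :=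
  div_nonneg (dS_nonneg _) hδ.le

theorem bmp_out {δ : ℝ} (hδ : 0 < δ) {p s : ℝ} (hs : s ∉ Icc p (p + δ)) : bmp δ p s = 0 := by
  unfold bmp
  rw [mem_Icc, not_and_or] at hs
  rcases hs with hs | hs
  · rw [dS_neg, zero_div]
    exact div_neg_of_neg_of_pos (by linarith) hδ
  · rw [dS_gt, zero_div]
    rw [lt_div_iff₀ hδ]
    linarith

theorem continuous_bmp (δ p : ℝ) : Continuous (bmp δ p) := by
  unfold bmp
  exact (continuous_dS.comp (by fun_prop)).div_const _

/-- the rescaled smoothed positive part -/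
def PhD (δ p s : ℝ) : ℝ := δ * Phi ((s - p) / δ)

theorem hasDerivAt_PhD {δ : ℝ} (hδ : 0 < δ) (p s : ℝ) :
    HasDerivAt (PhD δ p) (Real.smoothTransition ((s - p) / δ)) s := by
  have h1 : HasDerivAt (fun s : ℝ => (s - p) / δ) (1 / δ) s :=
    ((hasDerivAt_id s).sub_const p).div_const δ
  have h2 := ((hasDerivAt_Phi ((s - p) / δ)).comp s h1).const_mul δ
  refine h2.congr_deriv ?_
  field_simp

theorem deriv_PhD {δ : ℝ} (hδ : 0 < δ) (p : ℝ) :
    deriv (PhD δ p) = fun s => Real.smoothTransition ((s - p) / δ) :=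
  funext fun s => (hasDerivAt_PhD hδ p s).deriv

theorem hasDerivAt_S {δ : ℝ} (p s : ℝ) :
    HasDerivAt (fun s => Real.smoothTransition ((s - p) / δ)) (bmp δ p s) s := by
  have h1 : HasDerivAt (fun s : ℝ => (s - p) / δ) (1 / δ) s :=
    ((hasDerivAt_id s).sub_const p).div_const δ
  have h2 := (differentiable_S ((s - p) / δ)).hasDerivAt.comp s h1
  refine h2.congr_deriv ?_
  unfold bmp
  ring

theorem contDiff_PhD (δ p : ℝ) : ContDiff ℝ ∞ (PhD δ p) := by
  unfold PhD
  exact contDiff_const.mul (contDiff_Phi.comp ((contDiff_id.sub contDiff_const).div_const _))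

theorem PhD_left {δ : ℝ} (hδ : 0 < δ) {p s : ℝ} (h : s ≤ p) : PhD δ p s = 0 := by
  unfold PhD
  rw [Phi_of_nonpos, mul_zero]
  exact div_nonpos_of_nonpos_of_nonneg (by linarith) hδ.le

theorem PhD_right {δ : ℝ} (hδ : 0 < δ) {p s : ℝ} (h : p + δ ≤ s) :
    PhD δ p s = s - p - δ * (1 - Phi 1) := by
  unfold PhD
  rw [Phi_of_one_le]
  · field_simp
  · rw [le_div_iff₀ hδ]
    linarith

theorem PhD_convex {δ : ℝ} (hδ : 0 < δ) {x y a b : ℝ} (ha : 0 ≤ a) (hb : 0 ≤ b) (hab : a + b = 1)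
    (s : ℝ) : PhD δ (a * x + b * y) s ≤ a * PhD δ x s + b * PhD δ y s := by
  unfold PhD
  have h1 := convex_Phi.2 (mem_univ ((s - x) / δ)) (mem_univ ((s - y) / δ)) ha hb hab
  simp only [smul_eq_mul] at h1
  have h2 : a * ((s - x) / δ) + b * ((s - y) / δ) = (s - (a * x + b * y)) / δ := by
    rw [mul_div_assoc', mul_div_assoc', ← add_div]
    congr 1
    have : s = (a + b) * s := by rw [hab, one_mul]
    nlinarith
  rw [h2] at h1
  nlinarith

/-- integral of the bump -/
theorem integral_bmp {δ : ℝ} (hδ : 0 < δ) (p : ℝ) : ∫ s in Icc p (p + δ), bmp δ p s = 1 := by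
  rw [integral_Icc_eq_integral_Ioc, ← intervalIntegral.integral_of_le (by linarith)]
  rw [intervalIntegral.integral_eq_sub_of_hasDerivAt (f := fun s =>
    Real.smoothTransition ((s - p) / δ)) (fun s _ => hasDerivAt_S p s)
    ((continuous_bmp δ p).intervalIntegrable _ _)]
  have h1 : (p + δ - p) / δ = 1 := by
    rw [add_sub_cancel_left, div_self hδ.ne']
  rw [h1]
  simp

theorem integrable_bmp {g : ℝ → ℝ} {α : ℝ} (hg : ContinuousOn g (Ioo 0 α)) {p δ : ℝ}
    (hδ : 0 < δ) (hp : 0 < p) (hpα : p + δ < α) :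
    IntegrableOn (fun s => g s * bmp δ p s) (Icc p (p + δ)) ∧
    IntegrableOn (fun s => g s * bmp δ p s) (Ioo 0 α) := by
  have hsub : Icc p (p + δ) ⊆ Ioo 0 α := fun s hs =>
    ⟨lt_of_lt_of_le hp hs.1, lt_of_le_of_lt hs.2 hpα⟩
  have h1 : IntegrableOn (fun s => g s * bmp δ p s) (Icc p (p + δ)) :=
    ((hg.mono hsub).mul (continuous_bmp δ p).continuousOn).integrableOn_Icc
  refine ⟨h1, h1.of_forall_sdiff_eq_zero measurableSet_Ioo fun s hs => ?_⟩
  simp [bmp_out hδ hs.2]

/-- approximation of the value at a point -/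
theorem approx {g : ℝ → ℝ} {α : ℝ} (hg : ContinuousOn g (Ioo 0 α)) {p : ℝ} (hp : p ∈ Ioo 0 α)
    {ε : ℝ} (hε : 0 < ε) : ∃ δ₀ > 0, ∀ δ, 0 < δ → δ < δ₀ →
      |(∫ s in Ioo 0 α, g s * bmp δ p s) - g p| ≤ ε := by
  have hc : ContinuousAt g p := hg.continuousAt (Ioo_mem_nhds hp.1 hp.2)
  obtain ⟨d, hd, hdg⟩ := Metric.continuousAt_iff.mp hc ε hε
  refine ⟨min d (α - p), lt_min hd (by linarith [hp.2]), fun δ hδ hδ' => ?_⟩
  have hδd : δ < d := lt_of_lt_of_le hδ' (min_le_left _ _)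
  have hδα : p + δ < α := by linarith [lt_of_lt_of_le hδ' (min_le_right _ _)]
  have hsub : Icc p (p + δ) ⊆ Ioo 0 α := fun s hs =>
    ⟨lt_of_lt_of_le hp.1 hs.1, lt_of_le_of_lt hs.2 hδα⟩
  obtain ⟨hi1, -⟩ := integrable_bmp hg hδ hp.1 hδα
  have h1 : ∫ s in Ioo 0 α, g s * bmp δ p s = ∫ s in Icc p (p + δ), g s * bmp δ p s := by
    refine setIntegral_eq_of_subset_of_forall_sdiff_eq_zero measurableSet_Ioo hsub fun s hs => ?_
    simp [bmp_out hδ hs.2]
  have hib : IntegrableOn (bmp δ p) (Icc p (p + δ)) :=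
    (continuous_bmp δ p).continuousOn.integrableOn_Icc
  have h2 : g p = ∫ s in Icc p (p + δ), g p * bmp δ p s := by
    rw [integral_const_mul, integral_bmp hδ, mul_one]
  rw [h1, h2]
  rw [← integral_sub hi1 (hib.const_mul _)]
  have h3 : ‖∫ s in Icc p (p + δ), (g s * bmp δ p s - g p * bmp δ p s)‖
      ≤ ∫ s in Icc p (p + δ), ε * bmp δ p s := by
    refine norm_integral_le_of_norm_le (hib.const_mul _) ?_
    refine (ae_restrict_iff' measurableSet_Icc).mpr (Eventually.of_forall fun s hs => ?_)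
    rw [← sub_mul, norm_mul, Real.norm_of_nonneg (bmp_nonneg hδ p s)]
    refine mul_le_mul_of_nonneg_right ?_ (bmp_nonneg hδ p s)
    have h4 : dist s p < d := by
      rw [Real.dist_eq, abs_of_nonneg (by linarith [hs.1])]
      linarith [hs.2]
    exact (le_of_lt (by simpa [Real.dist_eq] using hdg h4))
  rw [integral_const_mul, integral_bmp hδ, mul_one] at h3
  exact h3

/-- a continuous function which is convex in the sense of distributions is convex -/
theorem convex_of_weak {g : ℝ → ℝ} {α : ℝ} (hg : ContinuousOn g (Ioo 0 α))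
    (h : ∀ χ : ℝ → ℝ, ContDiff ℝ ∞ χ → HasCompactSupport χ → tsupport χ ⊆ Ioo 0 α →
      (∀ s, 0 ≤ χ s) → 0 ≤ ∫ s in Ioo 0 α, g s * deriv (deriv χ) s) :
    ConvexOn ℝ (Ioo 0 α) g := by
  refine ⟨convex_Ioo _ _, ?_⟩
  intro x hx y hy a b ha hb hab
  simp only [smul_eq_mul]
  have hz : a * x + b * y ∈ Ioo 0 α := by
    have := (convex_Ioo (0 : ℝ) α) hx hy ha hb hab
    simpa using this
  set z := a * x + b * y with hzdef
  refine le_of_forall_pos_le_add fun ε hε => ?_
  obtain ⟨d1, hd1, H1⟩ := approx hg hx (ε := ε / 4) (by linarith)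
  obtain ⟨d2, hd2, H2⟩ := approx hg hy (ε := ε / 4) (by linarith)
  obtain ⟨d3, hd3, H3⟩ := approx hg hz (ε := ε / 4) (by linarith)
  set δ := min (min (min d1 d2) d3) (min (α - x) (α - y)) / 2 with hδdef
  have hm : 0 < min (min (min d1 d2) d3) (min (α - x) (α - y)) :=
    lt_min (lt_min (lt_min hd1 hd2) hd3) (lt_min (by linarith [hx.2]) (by linarith [hy.2]))
  have hδ : 0 < δ := by rw [hδdef]; linarith
  have hδm : δ < min (min (min d1 d2) d3) (min (α - x) (α - y)) := by rw [hδdef]; linarith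
  have hδ1 : δ < d1 := lt_of_lt_of_le hδm
    ((min_le_left _ _).trans ((min_le_left _ _).trans (min_le_left _ _)))
  have hδ2 : δ < d2 := lt_of_lt_of_le hδm
    ((min_le_left _ _).trans ((min_le_left _ _).trans (min_le_right _ _)))
  have hδ3 : δ < d3 := lt_of_lt_of_le hδm ((min_le_left _ _).trans (min_le_right _ _))
  have hδx : x + δ < α := by
    linarith [lt_of_lt_of_le hδm ((min_le_right _ _).trans (min_le_left _ _))]
  have hδy : y + δ < α := by
    linarith [lt_of_lt_of_le hδm ((min_le_right _ _).trans (min_le_right _ _))]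
  have hδz : z + δ < α := by
    have e1 : z + δ = a * (x + δ) + b * (y + δ) := by
      have : δ = (a + b) * δ := by rw [hab, one_mul]
      rw [hzdef]; nlinarith
    have := (convex_Iio (𝕜 := ℝ) α) (mem_Iio.mpr hδx) (mem_Iio.mpr hδy) ha hb hab
    simp only [smul_eq_mul, mem_Iio] at this
    rw [e1]; exact this
  set χ : ℝ → ℝ := fun s => a * PhD δ x s - PhD δ z s + b * PhD δ y s with hχ
  have hχs : ContDiff ℝ ∞ χ :=
    ((contDiff_const.mul (contDiff_PhD δ x)).sub (contDiff_PhD δ z)).add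
      (contDiff_const.mul (contDiff_PhD δ y))
  have hχ0 : ∀ s, 0 ≤ χ s := fun s => by
    have := PhD_convex hδ (x := x) (y := y) ha hb hab s
    simp only [hχ]
    linarith
  have hzl : min x y ≤ z := by
    have e1 : min x y = a * min x y + b * min x y := by rw [← add_mul, hab, one_mul]
    rw [e1, hzdef]
    exact add_le_add (mul_le_mul_of_nonneg_left (min_le_left _ _) ha)
      (mul_le_mul_of_nonneg_left (min_le_right _ _) hb)
  have hzr : z ≤ max x y := by
    have e1 : max x y = a * max x y + b * max x y := by rw [← add_mul, hab, one_mul]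
    rw [e1, hzdef]
    exact add_le_add (mul_le_mul_of_nonneg_left (le_max_left _ _) ha)
      (mul_le_mul_of_nonneg_left (le_max_right _ _) hb)
  have hout : ∀ s, s ∉ Icc (min x y) (max x y + δ) → χ s = 0 := by
    intro s hs
    rw [mem_Icc, not_and_or, not_le, not_le] at hs
    simp only [hχ]
    rcases hs with hs | hs
    · rw [PhD_left hδ (le_trans hs.le (min_le_left _ _)),
        PhD_left hδ (le_trans hs.le hzl),
        PhD_left hδ (le_trans hs.le (min_le_right _ _))]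
      ring
    · have e1 : x + δ ≤ s := by linarith [le_max_left x y]
      have e2 : y + δ ≤ s := by linarith [le_max_right x y]
      have e3 : z + δ ≤ s := by linarith
      rw [PhD_right hδ e1, PhD_right hδ e2, PhD_right hδ e3]
      have e4 : b = 1 - a := by linarith
      rw [hzdef, e4]
      ring
  have hcs : HasCompactSupport χ := HasCompactSupport.intro isCompact_Icc hout
  have hts : tsupport χ ⊆ Ioo 0 α := by
    have h1 : tsupport χ ⊆ Icc (min x y) (max x y + δ) := by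
      refine closure_minimal (fun s hs => ?_) isClosed_Icc
      by_contra hcon
      exact hs (hout s hcon)
    refine h1.trans fun s hs => ⟨lt_of_lt_of_le (lt_min hx.1 hy.1) hs.1, lt_of_le_of_lt hs.2 ?_⟩
    rcases max_choice x y with hm | hm <;> rw [hm] <;> assumption
  have hd1 : deriv χ = fun s => a * Real.smoothTransition ((s - x) / δ)
      - Real.smoothTransition ((s - z) / δ) + b * Real.smoothTransition ((s - y) / δ) := by
    funext s
    exact (((hasDerivAt_PhD hδ x s).const_mul a).sub (hasDerivAt_PhD hδ z s)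
      |>.add ((hasDerivAt_PhD hδ y s).const_mul b)).deriv
  have hd2 : deriv (deriv χ) = fun s => a * bmp δ x s - bmp δ z s + b * bmp δ y s := by
    funext s
    rw [hd1]
    exact (((hasDerivAt_S x s).const_mul a).sub (hasDerivAt_S z s)
      |>.add ((hasDerivAt_S y s).const_mul b)).deriv
  have hmain := h χ hχs hcs hts hχ0
  rw [hd2] at hmain
  obtain ⟨-, i1⟩ := integrable_bmp hg hδ hx.1 hδx
  obtain ⟨-, i2⟩ := integrable_bmp hg hδ hy.1 hδy
  obtain ⟨-, i3⟩ := integrable_bmp hg hδ hz.1 hδz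
  have hsplit : ∫ s in Ioo 0 α, g s * (a * bmp δ x s - bmp δ z s + b * bmp δ y s)
      = a * (∫ s in Ioo 0 α, g s * bmp δ x s) - (∫ s in Ioo 0 α, g s * bmp δ z s)
        + b * (∫ s in Ioo 0 α, g s * bmp δ y s) := by
    have e : (fun s => g s * (a * bmp δ x s - bmp δ z s + b * bmp δ y s))
        = fun s => (a * (g s * bmp δ x s) - g s * bmp δ z s) + b * (g s * bmp δ y s) := by
      funext s
      ring
    rw [e, integral_add (f := fun s => a * (g s * bmp δ x s) - g s * bmp δ z s)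
      (g := fun s => b * (g s * bmp δ y s)) ((i1.const_mul a).sub i3) (i2.const_mul b),
      integral_sub (f := fun s => a * (g s * bmp δ x s)) (g := fun s => g s * bmp δ z s)
      (i1.const_mul a) i3, integral_const_mul, integral_const_mul]
  simp only at hmain
  rw [hsplit] at hmain
  have q1 := abs_le.mp (H1 δ hδ hδ1)
  have q2 := abs_le.mp (H2 δ hδ hδ2)
  have q3 := abs_le.mp (H3 δ hδ hδ3)
  have ha1 : a ≤ 1 := by linarith
  have hb1 : b ≤ 1 := by linarith
  nlinarith [mul_le_mul_of_nonneg_left q1.2 ha, mul_le_mul_of_nonneg_left q2.2 hb, q3.1]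

/-- a convex function on `(0,α)` that tends to `0` at `0`: `h(a)/a` is nondecreasing -/
theorem slope_mono {h : ℝ → ℝ} {α : ℝ} (hc : ConvexOn ℝ (Ioo 0 α) h)
    (h0 : Tendsto h (𝓝[>] 0) (𝓝 0)) {a b : ℝ} (ha : 0 < a) (hab : a < b) (hb : b < α) :
    h a / a ≤ h b / b := by
  have hb0 : 0 < b := ha.trans hab
  have key : h a ≤ a / b * h b := by
    have ht : Tendsto (fun s => (b - a) / (b - s) * h s + (a - s) / (b - s) * h b) (𝓝[>] 0)
        (𝓝 ((b - a) / (b - 0) * 0 + (a - 0) / (b - 0) * h b)) := by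
      have t1 : Tendsto (fun s : ℝ => (b - a) / (b - s)) (𝓝[>] 0) (𝓝 ((b - a) / (b - 0))) := by
        have : ContinuousAt (fun s : ℝ => (b - a) / (b - s)) 0 := by
          refine ContinuousAt.div continuousAt_const (by fun_prop) (by simpa using hb0.ne')
        exact this.tendsto.mono_left inf_le_left
      have t2 : Tendsto (fun s : ℝ => (a - s) / (b - s)) (𝓝[>] 0) (𝓝 ((a - 0) / (b - 0))) := by
        have : ContinuousAt (fun s : ℝ => (a - s) / (b - s)) 0 := by
          refine ContinuousAt.div (by fun_prop) (by fun_prop) (by simpa using hb0.ne')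
        exact this.tendsto.mono_left inf_le_left
      exact (t1.mul h0).add (t2.mul tendsto_const_nhds)
    simp only [sub_zero, mul_zero, zero_add] at ht
    refine ge_of_tendsto ht ?_
    filter_upwards [Ioo_mem_nhdsGT ha] with s hs
    have hbs : 0 < b - s := by linarith [hs.2]
    have m1 : s ∈ Ioo 0 α := ⟨hs.1, by linarith [hs.2]⟩
    have m2 : b ∈ Ioo 0 α := ⟨hb0, hb⟩
    have m3 : 0 ≤ (b - a) / (b - s) := div_nonneg (by linarith) hbs.le
    have m4 : 0 ≤ (a - s) / (b - s) := div_nonneg (by linarith [hs.2]) hbs.le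
    have m5 : (b - a) / (b - s) + (a - s) / (b - s) = 1 := by
      rw [← add_div, div_eq_one_iff_eq hbs.ne']
      ring
    have e1 := hc.2 m1 m2 m3 m4 m5
    simp only [smul_eq_mul] at e1
    have e2 : (b - a) / (b - s) * s + (a - s) / (b - s) * b = a := by
      field_simp
      ring
    rwa [e2] at e1
  rw [div_le_div_iff₀ ha hb0]
  have : a / b * h b = a * h b / b := by ring
  rw [this, le_div_iff₀ hb0] at key
  linarith

/-- the conclusion in the variable `a` -/
theorem cubic {f : ℝ → ℝ} {α K B : ℝ} (hα : 0 < α) (hK : 0 ≤ K)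
    (hB : ∀ a ∈ Ioo 0 α, |f a| ≤ B * a)
    (hp : ConvexOn ℝ (Ioo 0 α) (fun a => f a + K * a ^ 3 / 6))
    (hm : ConvexOn ℝ (Ioo 0 α) (fun a => -f a + K * a ^ 3 / 6)) :
    ∃ ε : ℝ, |ε| ≤ B ∧ ∀ a ∈ Ioo 0 α, |f a - ε * a| ≤ K * a ^ 3 / 6 := by
  have hf0 : Tendsto f (𝓝[>] 0) (𝓝 0) := by
    refine squeeze_zero_norm' (a := fun a => B * a) ?_ ?_
    · filter_upwards [Ioo_mem_nhdsGT hα] with a ha using hB a ha
    · have : Tendsto (fun a : ℝ => B * a) (𝓝[>] 0) (𝓝 (B * 0)) :=
        ((continuous_const.mul continuous_id).tendsto 0).mono_left inf_le_left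
      simpa using this
  have hk0 : Tendsto (fun a : ℝ => K * a ^ 3 / 6) (𝓝[>] 0) (𝓝 0) := by
    have : Tendsto (fun a : ℝ => K * a ^ 3 / 6) (𝓝[>] 0) (𝓝 (K * 0 ^ 3 / 6)) := by
      have hc : Continuous (fun a : ℝ => K * a ^ 3 / 6) := by fun_prop
      exact (hc.tendsto 0).mono_left inf_le_left
    simpa using this
  have hp0 : Tendsto (fun a => f a + K * a ^ 3 / 6) (𝓝[>] 0) (𝓝 0) := by simpa using hf0.add hk0
  have hm0 : Tendsto (fun a => -f a + K * a ^ 3 / 6) (𝓝[>] 0) (𝓝 0) := by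
    simpa using hf0.neg.add hk0
  have up : ∀ a b, 0 < a → a ≤ b → b < α →
      f a / a + K * a ^ 2 / 6 ≤ f b / b + K * b ^ 2 / 6 := by
    intro a b ha hab hb
    rcases hab.eq_or_lt with rfl | hab
    · exact le_rfl
    have h1 := slope_mono hp hp0 ha hab hb
    have hb0 : 0 < b := ha.trans hab
    have e1 : (f a + K * a ^ 3 / 6) / a = f a / a + K * a ^ 2 / 6 := by field_simp
    have e2 : (f b + K * b ^ 3 / 6) / b = f b / b + K * b ^ 2 / 6 := by field_simp
    rwa [e1, e2] at h1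
  have dn : ∀ a b, 0 < a → a ≤ b → b < α →
      f b / b - K * b ^ 2 / 6 ≤ f a / a - K * a ^ 2 / 6 := by
    intro a b ha hab hb
    rcases hab.eq_or_lt with rfl | hab
    · exact le_rfl
    have h1 := slope_mono hm hm0 ha hab hb
    have hb0 : 0 < b := ha.trans hab
    have e1 : (-f a + K * a ^ 3 / 6) / a = -(f a / a) + K * a ^ 2 / 6 := by
      field_simp
    have e2 : (-f b + K * b ^ 3 / 6) / b = -(f b / b) + K * b ^ 2 / 6 := by
      field_simp
    rw [e1, e2] at h1
    linarith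
  have hq : ∀ a ∈ Ioo 0 α, |f a / a| ≤ B := by
    intro a ha
    rw [abs_div, abs_of_pos ha.1, div_le_iff₀ ha.1]
    exact hB a ha
  set S : Set ℝ := (fun a => f a / a + K * a ^ 2 / 6) '' Ioo 0 α with hS
  have hSn : S.Nonempty := ⟨_, α / 2, ⟨by linarith, by linarith⟩, rfl⟩
  have hlow : ∀ a ∈ Ioo 0 α, ∀ y ∈ S, f a / a - K * a ^ 2 / 6 ≤ y := by
    rintro a ha y ⟨b, hb, rfl⟩
    simp only
    have hc : min a b ∈ Ioo 0 α := ⟨lt_min ha.1 hb.1, (min_le_left _ _).trans_lt ha.2⟩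
    have h1 := dn (min a b) a hc.1 (min_le_left _ _) ha.2
    have h2 := up (min a b) b hc.1 (min_le_right _ _) hb.2
    have h3 : 0 ≤ K * (min a b) ^ 2 / 6 := by positivity
    linarith
  have hSb : BddBelow S := ⟨_, hlow (α / 2) ⟨by linarith, by linarith⟩⟩
  refine ⟨sInf S, ?_, ?_⟩
  · rw [abs_le]
    constructor
    · refine le_csInf hSn ?_
      rintro y ⟨a, ha, rfl⟩
      have h1 := (abs_le.mp (hq a ha)).1
      have h3 : 0 ≤ K * a ^ 2 / 6 := by positivity
      simp only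
      linarith
    · refine le_of_forall_pos_le_add fun ε hε => ?_
      -- choose a small
      obtain ⟨a, ha, haε⟩ : ∃ a ∈ Ioo 0 α, K * a ^ 2 / 6 ≤ ε := by
        have ht : Tendsto (fun a : ℝ => K * a ^ 2 / 6) (𝓝[>] 0) (𝓝 0) := by
          have : Tendsto (fun a : ℝ => K * a ^ 2 / 6) (𝓝[>] 0) (𝓝 (K * 0 ^ 2 / 6)) := by
            have hc : Continuous (fun a : ℝ => K * a ^ 2 / 6) := by fun_prop
            exact (hc.tendsto 0).mono_left inf_le_left
          simpa using this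
        have h1 := (ht.eventually (gt_mem_nhds hε)).and (Ioo_mem_nhdsGT hα)
        obtain ⟨a, ha1, ha2⟩ := h1.exists
        exact ⟨a, ha2, ha1.le⟩
      have h1 : sInf S ≤ f a / a + K * a ^ 2 / 6 := csInf_le hSb ⟨a, ha, rfl⟩
      have h2 := (abs_le.mp (hq a ha)).2
      linarith
  · intro a ha
    have h1 : sInf S ≤ f a / a + K * a ^ 2 / 6 := csInf_le hSb ⟨a, ha, rfl⟩
    have h2 : f a / a - K * a ^ 2 / 6 ≤ sInf S := le_csInf hSn (hlow a ha)
    have ha0 := ha.1
    have e1 : f a = f a / a * a := by field_simp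
    have h3 := mul_le_mul_of_nonneg_right h1 ha0.le
    have h4 := mul_le_mul_of_nonneg_right h2 ha0.le
    rw [abs_le]
    constructor
    · nlinarith
    · nlinarith

/-- integration by parts against the cubic weight -/
theorem cubic_ibp {α : ℝ} (hα : 0 < α) {χ : ℝ → ℝ} (hχ : ContDiff ℝ ∞ χ)
    (hts : tsupport χ ⊆ Ioo 0 α) :
    ∫ a in Ioo 0 α, a ^ 3 / 6 * deriv (deriv χ) a = ∫ a in Ioo 0 α, a * χ a := by
  have hd1 : ContDiff ℝ ∞ (deriv χ) := (contDiff_infty_iff_deriv.mp hχ).2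
  have hd2 : ContDiff ℝ ∞ (deriv (deriv χ)) := (contDiff_infty_iff_deriv.mp hd1).2
  have hdiff : Differentiable ℝ χ := (contDiff_infty_iff_deriv.mp hχ).1
  have hdiff1 : Differentiable ℝ (deriv χ) := (contDiff_infty_iff_deriv.mp hd1).1
  have hout : ∀ s, s ∉ Ioo 0 α → χ s = 0 ∧ deriv χ s = 0 := by
    intro s hs
    have h1 : s ∉ tsupport χ := fun h => hs (hts h)
    refine ⟨image_eq_zero_of_notMem_tsupport h1, ?_⟩
    have h2 : s ∉ tsupport (deriv χ) := fun h =>
      h1 (closure_minimal support_deriv_subset (isClosed_tsupport χ) h)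
    exact image_eq_zero_of_notMem_tsupport h2
  have z0 := hout 0 (by simp)
  have zα := hout α (by simp)
  rw [← integral_Ioc_eq_integral_Ioo, ← integral_Ioc_eq_integral_Ioo,
    ← intervalIntegral.integral_of_le hα.le, ← intervalIntegral.integral_of_le hα.le]
  have i1 := intervalIntegral.integral_mul_deriv_eq_deriv_mul (a := 0) (b := α)
    (u := fun a : ℝ => a ^ 3 / 6) (u' := fun a => a ^ 2 / 2) (v := deriv χ) (v' := deriv (deriv χ))
    (fun s _ => by
      have := (hasDerivAt_pow 3 s).div_const (6 : ℝ)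
      refine this.congr_deriv ?_
      norm_num
      ring)
    (fun s _ => (hdiff1 s).hasDerivAt)
    ((by fun_prop : Continuous fun a : ℝ => a ^ 2 / 2).intervalIntegrable _ _)
    (hd2.continuous.intervalIntegrable _ _)
  have i2 := intervalIntegral.integral_mul_deriv_eq_deriv_mul (a := 0) (b := α)
    (u := fun a : ℝ => a ^ 2 / 2) (u' := fun a => a) (v := χ) (v' := deriv χ)
    (fun s _ => by
      have := (hasDerivAt_pow 2 s).div_const (2 : ℝ)
      refine this.congr_deriv ?_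
      norm_num)
    (fun s _ => (hdiff s).hasDerivAt)
    (continuous_id.intervalIntegrable _ _)
    (hd1.continuous.intervalIntegrable _ _)
  rw [i1, i2, z0.1, z0.2, zα.1, zα.2]
  ring

/-! ### transfer to the variable `r` -/

theorem m_pos (hN : 3 ≤ N) : (0 : ℝ) < (N : ℝ) - 2 := by
  have : (3 : ℝ) ≤ N := by exact_mod_cast hN
  linarith

/-- the inverse of `AA` -/
def RR (N : ℕ) (a : ℝ) : ℝ := (1 + ((N : ℝ) - 2) * a) ^ (-(1 / ((N : ℝ) - 2)))

theorem RR_AA (hN : 3 ≤ N) {r : ℝ} (hr : 0 < r) : RR N (AA N r) = r := by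
  have hm := m_pos hN
  unfold RR AA
  have e1 : 1 + ((N : ℝ) - 2) * ((r ^ (2 - (N : ℝ)) - 1) / (N - 2)) = r ^ (2 - (N : ℝ)) := by
    field_simp
    ring
  rw [e1, ← Real.rpow_mul hr.le]
  have e2 : (2 - (N : ℝ)) * -(1 / ((N : ℝ) - 2)) = 1 := by
    field_simp
    ring
  rw [e2, Real.rpow_one]

theorem AA_RR (hN : 3 ≤ N) {a : ℝ} (ha : 0 ≤ a) : AA N (RR N a) = a := by
  have hm := m_pos hN
  have h0 : 0 ≤ 1 + ((N : ℝ) - 2) * a := by positivity
  unfold RR AA
  rw [← Real.rpow_mul h0]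
  have e2 : -(1 / ((N : ℝ) - 2)) * (2 - (N : ℝ)) = 1 := by
    field_simp
    ring
  rw [e2, Real.rpow_one]
  field_simp
  ring

theorem RR_pos (hN : 3 ≤ N) {a : ℝ} (ha : 0 ≤ a) : 0 < RR N a := by
  have hm := m_pos hN
  exact Real.rpow_pos_of_pos (by positivity) _

theorem hasDerivAt_AA (hN : 3 ≤ N) {r : ℝ} (hr : 0 < r) :
    HasDerivAt (AA N) (-(r ^ (N - 1))⁻¹) r := by
  have hm := m_pos hN
  unfold AA
  have h1 := ((Real.hasDerivAt_rpow_const (x := r) (p := 2 - (N : ℝ)) (Or.inl hr.ne')).sub_const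
    1).div_const ((N : ℝ) - 2)
  refine h1.congr_deriv ?_
  have e1 : (2 - (N : ℝ)) - 1 = -((N - 1 : ℕ) : ℝ) := by
    rw [Nat.cast_sub (by omega)]
    push_cast
    ring
  rw [e1, Real.rpow_neg hr.le, Real.rpow_natCast]
  field_simp
  ring

theorem AA_anti (hN : 3 ≤ N) {r s : ℝ} (hr : 0 < r) (hrs : r < s) : AA N s < AA N r := by
  have hm := m_pos hN
  unfold AA
  have h1 : s ^ (2 - (N : ℝ)) < r ^ (2 - (N : ℝ)) :=
    Real.rpow_lt_rpow_of_neg hr hrs (by linarith)
  exact div_lt_div_of_pos_right (by linarith) hm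

theorem AA_one : AA N 1 = 0 := by
  unfold AA
  simp

theorem AA_image (hN : 3 ≤ N) {ρ : ℝ} (hρ : 0 < ρ) (hρ1 : ρ < 1) :
    AA N '' Ioo ρ 1 = Ioo 0 (AA N ρ) := by
  ext a
  constructor
  · rintro ⟨r, hr, rfl⟩
    refine ⟨?_, AA_anti hN hρ hr.1⟩
    have := AA_anti hN (hρ.trans hr.1) hr.2
    rwa [AA_one] at this
  · intro ha
    have hR := RR_pos hN ha.1.le
    refine ⟨RR N a, ⟨?_, ?_⟩, AA_RR hN ha.1.le⟩
    · by_contra hcon
      push Not at hcon
      rcases hcon.eq_or_lt with h | h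
      · have := AA_RR hN ha.1.le
        rw [h] at this
        exact absurd ha.2 (by rw [this]; exact lt_irrefl _)
      · have := AA_anti hN hR h
        rw [AA_RR hN ha.1.le] at this
        exact absurd ha.2 (not_lt.mpr this.le)
    · by_contra hcon
      push Not at hcon
      rcases hcon.eq_or_lt with h | h
      · have := AA_RR hN ha.1.le
        rw [← h, AA_one] at this
        exact absurd ha.1 (by rw [this]; exact lt_irrefl _)
      · have := AA_anti hN one_pos h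
        rw [AA_RR hN ha.1.le, AA_one] at this
        exact absurd ha.1 (not_lt.mpr this.le)

theorem AA_ge (hN : 3 ≤ N) {r : ℝ} (hr : 0 < r) : 1 - r ≤ AA N r := by
  have hm := m_pos hN
  unfold AA
  rw [le_div_iff₀ hm]
  have h1 : r ^ (2 - (N : ℝ)) = Real.exp (Real.log r * (2 - (N : ℝ))) := Real.rpow_def_of_pos hr _
  have h2 := Real.add_one_le_exp (Real.log r * (2 - (N : ℝ)))
  have h3 := Real.log_le_sub_one_of_pos hr
  rw [h1]
  nlinarith

theorem AA_le (hN : 3 ≤ N) {ρ r : ℝ} (hρ : 0 < ρ) (hr : ρ ≤ r) (hr1 : r ≤ 1) :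
    AA N r ≤ ρ ^ (2 - (N : ℝ)) * (1 - r) := by
  have hm := m_pos hN
  have hr0 : 0 < r := lt_of_lt_of_le hρ hr
  have hN' : (3 : ℝ) ≤ N := by exact_mod_cast hN
  unfold AA
  rw [div_le_iff₀ hm]
  have h1 : r ^ (2 - (N : ℝ)) ≤ ρ ^ (2 - (N : ℝ)) :=
    Real.rpow_le_rpow_of_nonpos hρ hr (by linarith)
  have h2 : 1 + ((N : ℝ) - 2) * (r - 1) ≤ (1 + (r - 1)) ^ ((N : ℝ) - 2) :=
    one_add_mul_self_le_rpow_one_add (by linarith) (by linarith)
  have h3 : (1 + (r - 1)) ^ ((N : ℝ) - 2) = r ^ ((N : ℝ) - 2) := by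
    congr 1
    ring
  rw [h3] at h2
  have h4 : r ^ (2 - (N : ℝ)) * r ^ ((N : ℝ) - 2) = 1 := by
    rw [← Real.rpow_add hr0]
    ring_nf
    exact Real.rpow_zero r
  have h5 : 0 < r ^ (2 - (N : ℝ)) := Real.rpow_pos_of_pos hr0 _
  -- r^{-m} - 1 = r^{-m}(1 - r^m) ≤ r^{-m} m (1-r)
  have h6 : r ^ (2 - (N : ℝ)) - 1 = r ^ (2 - (N : ℝ)) * (1 - r ^ ((N : ℝ) - 2)) := by
    rw [mul_sub, h4, mul_one]
  rw [h6]
  have h7 : 1 - r ^ ((N : ℝ) - 2) ≤ ((N : ℝ) - 2) * (1 - r) := by linarith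
  have h8 : 0 ≤ ((N : ℝ) - 2) * (1 - r) := mul_nonneg hm.le (by linarith)
  calc r ^ (2 - (N : ℝ)) * (1 - r ^ ((N : ℝ) - 2))
      ≤ r ^ (2 - (N : ℝ)) * (((N : ℝ) - 2) * (1 - r)) := mul_le_mul_of_nonneg_left h7 h5.le
    _ ≤ ρ ^ (2 - (N : ℝ)) * (((N : ℝ) - 2) * (1 - r)) := mul_le_mul_of_nonneg_right h1 h8
    _ = ρ ^ (2 - (N : ℝ)) * (1 - r) * ((N : ℝ) - 2) := by ring

theorem continuousOn_RR (hN : 3 ≤ N) : ContinuousOn (RR N) (Ici 0) := by
  have hm := m_pos hN
  unfold RR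
  refine ContinuousOn.rpow_const (by fun_prop) fun a ha => Or.inl ?_
  have : (0 : ℝ) ≤ a := ha
  positivity

/-- the substitution `a = AA r` -/
theorem subst (hN : 3 ≤ N) {ρ : ℝ} (hρ : 0 < ρ) (hρ1 : ρ < 1) (g : ℝ → ℝ) :
    ∫ a in Ioo 0 (AA N ρ), g a = ∫ r in Ioo ρ 1, (r ^ (N - 1))⁻¹ * g (AA N r) := by
  rw [← AA_image hN hρ hρ1]
  rw [integral_image_eq_integral_abs_deriv_smul (f := AA N) (f' := fun r => -(r ^ (N - 1))⁻¹)
    measurableSet_Ioo (fun r hr => (hasDerivAt_AA hN (hρ.trans hr.1)).hasDerivWithinAt)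
    (fun r hr s hs h => by
      have h1 := RR_AA hN (hρ.trans hr.1)
      have h2 := RR_AA hN (hρ.trans hs.1)
      rw [← h1, h, h2])]
  refine setIntegral_congr_fun measurableSet_Ioo fun r hr => ?_
  have hr0 : 0 < r := hρ.trans hr.1
  simp only [smul_eq_mul, abs_neg]
  rw [abs_of_pos (by positivity)]

/-- the test function in the variable `r` -/
def psi (N : ℕ) (χ : ℝ → ℝ) (r : ℝ) : ℝ := if 0 < r then χ (AA N r) else 0

theorem psi_spec (hN : 3 ≤ N) {ρ : ℝ} (hρ : 0 < ρ) (hρ1 : ρ < 1) {χ : ℝ → ℝ}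
    (hχ : ContDiff ℝ ∞ χ) (hc : HasCompactSupport χ) (hts : tsupport χ ⊆ Ioo 0 (AA N ρ)) :
    ContDiff ℝ ∞ (psi N χ) ∧ HasCompactSupport (psi N χ) ∧ tsupport (psi N χ) ⊆ Ioo ρ 1 := by
  set K : Set ℝ := RR N '' tsupport χ with hK
  have hKc : IsCompact K := IsCompact.image_of_continuousOn hc
    ((continuousOn_RR hN).mono fun a ha => (hts ha).1.le)
  have hKs : K ⊆ Ioo ρ 1 := by
    rintro r ⟨a, ha, rfl⟩
    have : a ∈ AA N '' Ioo ρ 1 := by
      rw [AA_image hN hρ hρ1]
      exact hts ha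
    obtain ⟨r, hr, rfl⟩ := this
    rwa [RR_AA hN (hρ.trans hr.1)]
  have hout : ∀ r, r ∉ K → psi N χ r = 0 := by
    intro r hr
    unfold psi
    split_ifs with h0
    · by_contra hcon
      refine hr ⟨AA N r, subset_tsupport χ hcon, RR_AA hN h0⟩
    · rfl
  have hcs : HasCompactSupport (psi N χ) := HasCompactSupport.intro hKc hout
  have htp : tsupport (psi N χ) ⊆ K := by
    refine closure_minimal (fun r hr => ?_) hKc.isClosed
    by_contra hcon
    exact hr (hout r hcon)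
  refine ⟨?_, hcs, htp.trans hKs⟩
  rw [contDiff_iff_contDiffAt]
  intro r₀
  rcases lt_or_ge 0 r₀ with h0 | h0
  · have h1 : psi N χ =ᶠ[𝓝 r₀] fun r => χ (AA N r) := by
      filter_upwards [Ioi_mem_nhds h0] with r hr
      unfold psi
      rw [if_pos (show (0 : ℝ) < r from hr)]
    refine ContDiffAt.congr_of_eventuallyEq ?_ h1
    have h2 : ContDiffAt ℝ ∞ (AA N) r₀ := by
      unfold AA
      exact ((Real.contDiffAt_rpow_const_of_ne h0.ne').sub contDiffAt_const).div_const _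
    exact hχ.contDiffAt.comp r₀ h2
  · have h1 : psi N χ =ᶠ[𝓝 r₀] fun _ => 0 := by
      filter_upwards [Iio_mem_nhds (lt_of_le_of_lt h0 hρ)] with r hr
      exact hout r fun h => absurd (hKs h).1 (not_lt.mpr (le_of_lt hr))
    exact contDiffAt_const.congr_of_eventuallyEq h1

theorem psi_op (hN : 3 ≤ N) {χ : ℝ → ℝ} (hχ : ContDiff ℝ ∞ χ) {r : ℝ} (hr : 0 < r) :
    deriv (fun s => s ^ (N - 1) * deriv (psi N χ) s) r
      = (r ^ (N - 1))⁻¹ * deriv (deriv χ) (AA N r) := by
  have hdiff : Differentiable ℝ χ := (contDiff_infty_iff_deriv.mp hχ).1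
  have hd1 : ContDiff ℝ ∞ (deriv χ) := (contDiff_infty_iff_deriv.mp hχ).2
  have hdiff1 : Differentiable ℝ (deriv χ) := (contDiff_infty_iff_deriv.mp hd1).1
  have h1 : ∀ s, 0 < s → deriv (psi N χ) s = deriv χ (AA N s) * (-(s ^ (N - 1))⁻¹) := by
    intro s hs
    have e : psi N χ =ᶠ[𝓝 s] fun r => χ (AA N r) := by
      filter_upwards [Ioi_mem_nhds hs] with r hr
      unfold psi
      rw [if_pos (show (0 : ℝ) < r from hr)]
    rw [e.deriv_eq]
    exact ((hdiff (AA N s)).hasDerivAt.comp s (hasDerivAt_AA hN hs)).deriv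
  have h2 : (fun s => s ^ (N - 1) * deriv (psi N χ) s) =ᶠ[𝓝 r] fun s => -deriv χ (AA N s) := by
    filter_upwards [Ioi_mem_nhds hr] with s hs
    have hs' : (0 : ℝ) < s := hs
    rw [h1 s hs']
    have : s ^ (N - 1) ≠ 0 := by positivity
    field_simp
  rw [h2.deriv_eq]
  have h3 := ((hdiff1 (AA N r)).hasDerivAt.comp r (hasDerivAt_AA hN hr)).neg
  have h4 : HasDerivAt (fun s => -deriv χ (AA N s))
      (-(deriv (deriv χ) (AA N r) * -(r ^ (N - 1))⁻¹)) r := h3
  rw [h4.deriv]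
  ring

end C9b

open C9b in
/-- C9b: one-dimensional convexity lemma -/
theorem conv1D (hN : 3 ≤ N) {ρ : ℝ} (hρ : 0 < ρ) (hρ1 : ρ < 1) : ∃ C : ℝ, 0 < C ∧
    ∀ (M : ℝ → ℝ) (B K : ℝ), ContinuousOn M (Ioo ρ 1) → (∀ r ∈ Ioo ρ 1, |M r| ≤ B * (1 - r)) →
      0 ≤ K →
      (∀ ψ : ℝ → ℝ, ContDiff ℝ ∞ ψ → HasCompactSupport ψ → tsupport ψ ⊆ Ioo ρ 1 →
        |∫ r in ρ..1, M r * deriv (fun s => s ^ (N - 1) * deriv ψ s) r|
          ≤ K * ∫ r in ρ..1, (1 - r) * |ψ r|) →
      ∃ ε : ℝ, |ε| ≤ B ∧ ∀ r ∈ Ioo ρ 1, |M r - ε * AA N r| ≤ C * K * (1 - r) ^ 3 := by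
  have hρm : 0 < ρ ^ (2 - (N : ℝ)) := Real.rpow_pos_of_pos hρ _
  refine ⟨(ρ ^ (2 - (N : ℝ))) ^ 3, by positivity, ?_⟩
  intro M B K hM hMB hK hweak
  set α := AA N ρ with hα
  have hα0 : 0 < α := by
    have := AA_anti hN hρ hρ1
    rwa [AA_one] at this
  set f : ℝ → ℝ := fun a => M (RR N a) with hf
  have hRmem : ∀ a ∈ Ioo 0 α, RR N a ∈ Ioo ρ 1 := by
    intro a ha
    rw [hα, ← AA_image hN hρ hρ1] at ha
    obtain ⟨r, hr, rfl⟩ := ha
    rwa [RR_AA hN (hρ.trans hr.1)]
  have hfc : ContinuousOn f (Ioo 0 α) :=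
    hM.comp ((continuousOn_RR hN).mono fun a ha => ha.1.le) hRmem
  have hB0 : 0 ≤ B := by
    have hm : (ρ + 1) / 2 ∈ Ioo ρ 1 := ⟨by linarith, by linarith⟩
    have h1 := (abs_nonneg _).trans (hMB _ hm)
    exact nonneg_of_mul_nonneg_left h1 (by linarith)
  have hfB : ∀ a ∈ Ioo 0 α, |f a| ≤ B * a := by
    intro a ha
    have h1 := hMB _ (hRmem a ha)
    have h2 := AA_ge hN (RR_pos hN ha.1.le)
    rw [AA_RR hN ha.1.le] at h2
    exact h1.trans (mul_le_mul_of_nonneg_left h2 hB0)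
  -- the weak inequality in the variable `a`
  have hweak' : ∀ χ : ℝ → ℝ, ContDiff ℝ ∞ χ → HasCompactSupport χ → tsupport χ ⊆ Ioo 0 α →
      |∫ a in Ioo 0 α, f a * deriv (deriv χ) a| ≤ K * ∫ a in Ioo 0 α, a * |χ a| := by
    intro χ hχ hc hts
    obtain ⟨p1, p2, p3⟩ := psi_spec hN hρ hρ1 hχ hc hts
    have h1 := hweak _ p1 p2 p3
    have h2 : ∫ r in ρ..1, M r * deriv (fun s => s ^ (N - 1) * deriv (psi N χ) s) r
        = ∫ a in Ioo 0 α, f a * deriv (deriv χ) a := by
      rw [intervalIntegral.integral_of_le hρ1.le, integral_Ioc_eq_integral_Ioo,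
        subst hN hρ hρ1 (fun a => f a * deriv (deriv χ) a)]
      refine setIntegral_congr_fun measurableSet_Ioo fun r hr => ?_
      have hr0 : 0 < r := hρ.trans hr.1
      simp only [hf]
      rw [psi_op hN hχ hr0, RR_AA hN hr0]
      ring
    rw [h2] at h1
    refine h1.trans (mul_le_mul_of_nonneg_left ?_ hK)
    rw [intervalIntegral.integral_of_le hρ1.le, integral_Ioc_eq_integral_Ioo,
      subst hN hρ hρ1 (fun a => a * |χ a|)]
    have hcA : ContinuousOn (AA N) (Icc ρ 1) := fun r hr =>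
      (hasDerivAt_AA hN (lt_of_lt_of_le hρ hr.1)).continuousAt.continuousWithinAt
    refine setIntegral_mono_on ?_ ?_ measurableSet_Ioo ?_
    · have : Continuous fun r : ℝ => (1 - r) * |psi N χ r| :=
        (by fun_prop : Continuous fun r : ℝ => 1 - r).mul p1.continuous.abs
      exact (this.continuousOn.integrableOn_Icc (a := ρ) (b := 1)).mono_set Ioo_subset_Icc_self
    · have : ContinuousOn (fun r : ℝ => (r ^ (N - 1))⁻¹ * (AA N r * |χ (AA N r)|)) (Icc ρ 1) := by
        refine ContinuousOn.mul ?_ (hcA.mul ?_)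
        · refine ContinuousOn.inv₀ (by fun_prop) fun r hr => ?_
          have : 0 < r := lt_of_lt_of_le hρ hr.1
          positivity
        · exact (hχ.continuous.comp_continuousOn hcA).abs
      exact this.integrableOn_Icc.mono_set Ioo_subset_Icc_self
    · intro r hr
      have hr0 : 0 < r := hρ.trans hr.1
      have e1 : psi N χ r = χ (AA N r) := by
        unfold psi
        rw [if_pos hr0]
      rw [e1, ← mul_assoc]
      refine mul_le_mul_of_nonneg_right ?_ (abs_nonneg _)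
      have e2 : 1 - r ≤ AA N r := AA_ge hN hr0
      have e3 : 1 ≤ (r ^ (N - 1))⁻¹ :=
        (one_le_inv₀ (by positivity)).mpr (pow_le_one₀ hr0.le hr.2.le)
      have e4 : 0 ≤ AA N r := le_trans (by linarith [hr.2]) e2
      nlinarith [mul_le_mul_of_nonneg_right e3 e4]
  -- integrability of `f χ''`
  have hint : ∀ χ : ℝ → ℝ, ContDiff ℝ ∞ χ → HasCompactSupport χ → tsupport χ ⊆ Ioo 0 α →
      IntegrableOn (fun a => f a * deriv (deriv χ) a) (Ioo 0 α) := by
    intro χ hχ hc hts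
    have hd1 : ContDiff ℝ ∞ (deriv χ) := (contDiff_infty_iff_deriv.mp hχ).2
    have hd2 : ContDiff ℝ ∞ (deriv (deriv χ)) := (contDiff_infty_iff_deriv.mp hd1).2
    have h1 : IntegrableOn (fun a => f a * deriv (deriv χ) a) (tsupport χ) :=
      ((hfc.mono hts).mul hd2.continuous.continuousOn).integrableOn_compact hc
    refine h1.of_forall_sdiff_eq_zero measurableSet_Ioo fun s hs => ?_
    have h2 : s ∉ tsupport (deriv χ) := fun h =>
      hs.2 (closure_minimal support_deriv_subset (isClosed_tsupport χ) h)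
    have h3 : s ∉ tsupport (deriv (deriv χ)) := fun h =>
      h2 (closure_minimal support_deriv_subset (isClosed_tsupport (deriv χ)) h)
    simp [image_eq_zero_of_notMem_tsupport h3]
  have hint3 : ∀ χ : ℝ → ℝ, ContDiff ℝ ∞ χ →
      IntegrableOn (fun a => a ^ 3 / 6 * deriv (deriv χ) a) (Ioo 0 α) := by
    intro χ hχ
    have hd1 : ContDiff ℝ ∞ (deriv χ) := (contDiff_infty_iff_deriv.mp hχ).2
    have hd2 : ContDiff ℝ ∞ (deriv (deriv χ)) := (contDiff_infty_iff_deriv.mp hd1).2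
    have : Continuous fun a : ℝ => a ^ 3 / 6 * deriv (deriv χ) a :=
      (by fun_prop : Continuous fun a : ℝ => a ^ 3 / 6).mul hd2.continuous
    exact (this.continuousOn.integrableOn_Icc (a := 0) (b := α)).mono_set Ioo_subset_Icc_self
  have hconv : ∀ σ : ℝ, |σ| = 1 →
      ConvexOn ℝ (Ioo 0 α) (fun a => σ * f a + K * a ^ 3 / 6) := by
    intro σ hσ
    refine convex_of_weak ((continuousOn_const.mul hfc).add (by fun_prop)) ?_
    intro χ hχ hc hts hχ0
    have e : (fun s => (σ * f s + K * s ^ 3 / 6) * deriv (deriv χ) s)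
        = fun s => σ * (f s * deriv (deriv χ) s) + K * (s ^ 3 / 6 * deriv (deriv χ) s) := by
      funext s
      ring
    rw [e, integral_add (f := fun s => σ * (f s * deriv (deriv χ) s))
      (g := fun s => K * (s ^ 3 / 6 * deriv (deriv χ) s)) ((hint χ hχ hc hts).const_mul σ)
      ((hint3 χ hχ).const_mul K), integral_const_mul, integral_const_mul, cubic_ibp hα0 hχ hts]
    have h1 := hweak' χ hχ hc hts
    have h2 : ∫ a in Ioo 0 α, a * |χ a| = ∫ a in Ioo 0 α, a * χ a := by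
      refine setIntegral_congr_fun measurableSet_Ioo fun a _ => ?_
      show a * |χ a| = a * χ a
      rw [abs_of_nonneg (hχ0 a)]
    rw [h2] at h1
    have h3 : |σ * ∫ a in Ioo 0 α, f a * deriv (deriv χ) a| ≤ K * ∫ a in Ioo 0 α, a * χ a := by
      rw [abs_mul, hσ, one_mul]
      exact h1
    linarith [(abs_le.mp h3).1]
  have hp : ConvexOn ℝ (Ioo 0 α) (fun a => f a + K * a ^ 3 / 6) := by
    have := hconv 1 (by simp)
    simpa using this
  have hm : ConvexOn ℝ (Ioo 0 α) (fun a => -f a + K * a ^ 3 / 6) := by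
    have := hconv (-1) (by simp)
    simpa using this
  obtain ⟨ε, hεB, hε⟩ := cubic hα0 hK hfB hp hm
  refine ⟨ε, hεB, fun r hr => ?_⟩
  have hr0 : 0 < r := hρ.trans hr.1
  have hA : AA N r ∈ Ioo 0 α := by
    rw [hα, ← AA_image hN hρ hρ1]
    exact ⟨r, hr, rfl⟩
  have h1 := hε _ hA
  simp only [hf] at h1
  rw [RR_AA hN hr0] at h1
  refine h1.trans ?_
  have h2 := AA_le hN hρ hr.1.le hr.2.le
  have h3 : AA N r ^ 3 ≤ (ρ ^ (2 - (N : ℝ)) * (1 - r)) ^ 3 := pow_le_pow_left₀ hA.1.le h2 3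
  have h4 : 0 ≤ (ρ ^ (2 - (N : ℝ)) * (1 - r)) ^ 3 := by
    have : 0 ≤ 1 - r := by linarith [hr.2]
    positivity
  have h5 : K * AA N r ^ 3 ≤ K * (ρ ^ (2 - (N : ℝ)) * (1 - r)) ^ 3 :=
    mul_le_mul_of_nonneg_left h3 hK
  have h6 : 0 ≤ K * (ρ ^ (2 - (N : ℝ)) * (1 - r)) ^ 3 := mul_nonneg hK h4
  calc K * AA N r ^ 3 / 6 ≤ K * (ρ ^ (2 - (N : ℝ)) * (1 - r)) ^ 3 := by linarith
    _ = (ρ ^ (2 - (N : ℝ))) ^ 3 * K * (1 - r) ^ 3 := by ring

end Pool.Agent.helper13.BN
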